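import Mathlib
import Pool.Agent.H89.CV1

set_option autoImplicit false

namespace Pool.Agent.Results.MP_d2c11a_nt.Congruence

open Finset Pool.Agent.H89.CV Nat

/-- the sequence `s_n` -/
def s (n : ℕ) : ℚ :=
  ((6 * n)! * n ! : ℚ) / (2 * (2 * n + 1) * (3 * n)! * ((2 * n)! : ℚ) ^ 2)

/-- the sum `S_p` -/
def S (p : ℕ) : ℚ := ∑ k ∈ Icc 1 (p - 1), s k / 108 ^ k

def t (k : ℕ) : ℚ := s k / 108 ^ k

theorem t_zero : t 0 = 1 / 2 := by simp [t, s]

theorem t_succ (k : ℕ) : t (k + 1) =
    t k * ((((6 * k + 1) * (6 * k + 5) : ℤ) : ℚ) / ((18 * (2 * k + 3) * (k + 1) : ℤ) : ℚ)) := by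
  unfold t s
  rw [show 6 * (k + 1) = 6 * k + 1 + 1 + 1 + 1 + 1 + 1 by ring,
    show 3 * (k + 1) = 3 * k + 1 + 1 + 1 by ring, show 2 * (k + 1) = 2 * k + 1 + 1 by ring]
  simp only [Nat.factorial_succ]
  push_cast
  have h1 : ((3 * k)! : ℚ) ≠ 0 := by positivity
  have h2 : ((2 * k)! : ℚ) ≠ 0 := by positivity
  field_simp
  ring

theorem s_choose (j : ℕ) : s (j + 1) =
    (((6 * j + 6).choose (3 * j + 3) * (3 * j + 3).choose j : ℤ) : ℚ) /
      ((2 * (j + 1) * (2 * j + 2).choose (j + 1) : ℤ) : ℚ) := by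
  unfold s
  push_cast
  rw [Nat.cast_choose ℚ (by omega : 3 * j + 3 ≤ 6 * j + 6), Nat.cast_choose ℚ (by omega : j ≤ 3 * j + 3),
    Nat.cast_choose ℚ (by omega : j + 1 ≤ 2 * j + 2),
    show 6 * j + 6 - (3 * j + 3) = 3 * j + 3 by omega, show 3 * j + 3 - j = 2 * j + 2 + 1 by omega,
    show 2 * j + 2 - (j + 1) = j + 1 by omega, show 6 * (j + 1) = 6 * j + 6 by ring,
    show 3 * (j + 1) = 3 * j + 3 by ring, show 2 * (j + 1) = 2 * j + 2 by ring,
    Nat.factorial_succ (2 * j + 2), Nat.factorial_succ j]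
  push_cast
  have h1 : ((3 * j + 3)! : ℚ) ≠ 0 := by positivity
  have h2 : ((2 * j + 2)! : ℚ) ≠ 0 := by positivity
  have h3 : (j ! : ℚ) ≠ 0 := by positivity
  field_simp

variable {p : ℕ} [Fact p.Prime]

theorem cast0 {m : ℕ} (h : p = m) : (m : ZMod p) = 0 := h ▸ ZMod.natCast_self p

theorem red_s (j : ℕ) (hp : p = 2 * j + 3) (hj : 1 ≤ j) : Red p (s (j + 1)) (-1 / 4) := by
  have hp0 : (2 * j + 3 : ZMod p) = 0 := by
    exact_mod_cast cast0 hp
  have h2 : (2 : ZMod p) ≠ 0 := by exact_mod_cast nat_ne (p := p) (m := 2) (by omega) (by omega)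
  have hj1 : (j + 1 : ZMod p) ≠ 0 := by
    exact_mod_cast nat_ne (p := p) (m := j + 1) (by omega) (by omega)
  have hc : (((2 * j + 2).choose (j + 1) : ℕ) : ZMod p) ≠ 0 := by
    rw [Ne, ZMod.natCast_eq_zero_iff]
    intro hd
    have h1 : p ∣ (2 * j + 2)! := by
      rw [← Nat.choose_mul_factorial_mul_factorial (by omega : j + 1 ≤ 2 * j + 2)]
      exact Dvd.dvd.mul_right (Dvd.dvd.mul_right hd _) _
    have := (Nat.Prime.dvd_factorial Fact.out).1 h1
    omega
  have hpos : 0 < p := by omega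
  have l1 : (((6 * j + 6).choose (3 * j + 3) : ℕ) : ZMod p) = 2 * ((2 * j).choose j : ℕ) := by
    have := Choose.choose_modEq_choose_mod_mul_choose_div_nat (n := 6 * j + 6) (k := 3 * j + 3) (p := p)
    rw [show 6 * j + 6 = 2 * j + 2 * p by omega, show 3 * j + 3 = j + 1 * p by omega,
      Nat.add_mul_mod_self_right, Nat.add_mul_mod_self_right, Nat.add_mul_div_right _ _ hpos,
      Nat.add_mul_div_right _ _ hpos, Nat.mod_eq_of_lt (by omega), Nat.mod_eq_of_lt (by omega),
      Nat.div_eq_of_lt (by omega), Nat.div_eq_of_lt (by omega)] at this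
    rw [show 6 * j + 6 = 2 * j + 2 * p by omega, show 3 * j + 3 = j + 1 * p by omega,
      (ZMod.natCast_eq_natCast_iff _ _ _).2 this]
    simp [mul_comm]
  have l2 : (((3 * j + 3).choose j : ℕ) : ZMod p) = 1 := by
    have := Choose.choose_modEq_choose_mod_mul_choose_div_nat (n := 3 * j + 3) (k := j) (p := p)
    rw [show 3 * j + 3 = j + 1 * p by omega,
      Nat.add_mul_mod_self_right, Nat.add_mul_div_right _ _ hpos,
      Nat.mod_eq_of_lt (by omega), Nat.div_eq_of_lt (by omega)] at this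
    rw [show 3 * j + 3 = j + 1 * p by omega, (ZMod.natCast_eq_natCast_iff _ _ _).2 this]
    simp
  have l3 : (j + 1 : ZMod p) * ((2 * j + 2).choose (j + 1) : ℕ) =
      2 * (2 * j + 1) * ((2 * j).choose j : ℕ) := by
    have := Nat.succ_mul_centralBinom_succ j
    rw [Nat.centralBinom_eq_two_mul_choose, Nat.centralBinom_eq_two_mul_choose,
      show 2 * (j + 1) = 2 * j + 2 by ring] at this
    exact_mod_cast congrArg (Nat.cast : ℕ → ZMod p) this
  refine (Red.frac _ _ ?_).congr (s_choose j).symm ?_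
  · push_cast; exact mul_ne_zero (mul_ne_zero h2 hj1) hc
  · push_cast
    have h4 : (4 : ZMod p) ≠ 0 := by
      rw [show (4 : ZMod p) = 2 * 2 by norm_num]; exact mul_ne_zero h2 h2
    rw [l1, l2, div_eq_div_iff (mul_ne_zero (mul_ne_zero h2 hj1) hc) h4]
    linear_combination 2 * l3 + 4 * (((2 * j).choose j : ℕ) : ZMod p) * hp0

theorem red_first (h : ℕ) (hp : p = 2 * h + 1) (hh : 2 ≤ h) (k : ℕ) (hk : k < h) :
    Red p (t k) (1 / 2 * g (1 / 6) (5 / 6) (3 / 2) k) := by
  have h2 : (2 : ZMod p) ≠ 0 := by exact_mod_cast nat_ne (p := p) (m := 2) (by omega) (by omega)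
  have h3 : (3 : ZMod p) ≠ 0 := by exact_mod_cast nat_ne (p := p) (m := 3) (by omega) (by omega)
  have h6 : (6 : ZMod p) ≠ 0 := by
    rw [show (6 : ZMod p) = 2 * 3 by norm_num]; exact mul_ne_zero h2 h3
  have h18 : (18 : ZMod p) ≠ 0 := by
    rw [show (18 : ZMod p) = 6 * 3 by norm_num]; exact mul_ne_zero h6 h3
  induction k with
  | zero =>
    refine (Red.frac 1 2 (by exact_mod_cast h2)).congr (by rw [t_zero]; norm_num) ?_
    rw [g_zero]; norm_num
  | succ k ih =>
    have a1 : (2 * k + 3 : ZMod p) ≠ 0 := by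
      exact_mod_cast nat_ne (p := p) (m := 2 * k + 3) (by omega) (by omega)
    have a2 : (k + 1 : ZMod p) ≠ 0 := by
      exact_mod_cast nat_ne (p := p) (m := k + 1) (by omega) (by omega)
    refine ((ih (by omega)).mul (Red.frac _ _ ?_)).congr (t_succ k).symm ?_
    · push_cast; exact mul_ne_zero (mul_ne_zero h18 a1) a2
    · rw [g_succ, mul_assoc]
      congr 2
      push_cast
      have a3 : (3 / 2 + k : ZMod p) = (2 * k + 3) / 2 := by field_simp; ring
      rw [a3, add_comm (1 : ZMod p) k]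
      field_simp
      ring

theorem red_second (h : ℕ) (hp : p = 2 * h + 1) (hh : 2 ≤ h) (τ : ZMod p) (hτ : Red p (t h) τ)
    (j : ℕ) (hj : j < h + 1) : Red p (t (h + j)) (τ * g (1 / 3) (-1 / 3) (1 / 2) j) := by
  have h2 : (2 : ZMod p) ≠ 0 := by exact_mod_cast nat_ne (p := p) (m := 2) (by omega) (by omega)
  have h3 : (3 : ZMod p) ≠ 0 := by exact_mod_cast nat_ne (p := p) (m := 3) (by omega) (by omega)
  have h18 : (18 : ZMod p) ≠ 0 := by
    rw [show (18 : ZMod p) = 2 * 3 * 3 by norm_num]; exact mul_ne_zero (mul_ne_zero h2 h3) h3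
  have hp0 : (2 * h + 1 : ZMod p) = 0 := by
    exact_mod_cast cast0 hp
  have hh' : (h : ZMod p) = -1 / 2 := by field_simp; linear_combination hp0
  induction j with
  | zero => rw [g_zero, mul_one]; exact hτ
  | succ j ih =>
    have a1 : (2 * j + 1 : ZMod p) ≠ 0 := by
      exact_mod_cast nat_ne (p := p) (m := 2 * j + 1) (by omega) (by omega)
    have a2 : (j + 1 : ZMod p) ≠ 0 := by
      exact_mod_cast nat_ne (p := p) (m := j + 1) (by omega) (by omega)
    have b1 : (2 * (h + j) + 3 : ZMod p) = 2 * (j + 1) := by linear_combination hp0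
    have b2 : (h + j + 1 : ZMod p) = (2 * j + 1) / 2 := by rw [hh']; field_simp; ring
    refine ((ih (by omega)).mul (Red.frac _ _ ?_)).congr (t_succ (h + j)).symm ?_
    · push_cast; rw [b1, b2]
      exact mul_ne_zero (mul_ne_zero h18 (mul_ne_zero h2 a2)) (div_ne_zero a1 h2)
    · rw [g_succ, mul_assoc]
      congr 2
      push_cast
      have a3 : (1 / 2 + j : ZMod p) = (2 * j + 1) / 2 := by field_simp; ring
      have b3 : (6 * (h + j) + 1 : ZMod p) = 2 * (3 * j - 1) := by linear_combination 3 * hp0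
      have b4 : (6 * (h + j) + 5 : ZMod p) = 2 * (3 * j + 1) := by linear_combination 3 * hp0
      rw [a3, add_comm (1 : ZMod p) j, b1, b2, b3, b4]
      field_simp
      ring

theorem three_pow (h : ℕ) (hp : p = 2 * h + 1) (hh : 2 ≤ h) :
    (3 : ZMod p) ^ h = (-1) ^ h * (if p % 3 = 1 then 1 else -1) := by
  haveI : Fact (Nat.Prime 3) := ⟨Nat.prime_three⟩
  have e := legendreSym.eq_pow p 3
  have q := legendreSym.quadratic_reciprocity' (p := 3) (q := p) (by norm_num) (by omega)
  rw [show p / 2 = h by omega] at e q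
  have h3 : p % 3 ≠ 0 := by
    intro h0
    have := (Nat.prime_dvd_prime_iff_eq Nat.prime_three Fact.out).1 (Nat.dvd_of_mod_eq_zero h0)
    omega
  have l : legendreSym 3 p = if p % 3 = 1 then 1 else -1 := by
    rw [legendreSym.mod]
    split_ifs with h1
    · rw [show (p : ℤ) % (3 : ℕ) = 1 by omega]; exact legendreSym.at_one 3
    · rw [show (p : ℤ) % (3 : ℕ) = 2 by omega]; norm_num
  have e' : (3 : ZMod p) ^ h = ((legendreSym p (3 : ℕ) : ℤ) : ZMod p) := by
    exact_mod_cast e.symm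
  rw [e', q, l]
  split_ifs <;> simp

theorem red_S (h : ℕ) (hp : p = 2 * h + 1) (hh : 2 ≤ h) (n m : ℕ) (ε : ZMod p)
    (hn : p = 6 * n + 1 ∧ p = 3 * m + 1 ∧ ε = 1 ∨ p = 6 * n + 5 ∧ p + 1 = 3 * m ∧ ε = -1) :
    Red p (S p) (ε * ((-1) ^ n * 3 - (-1) ^ h) / 4 - 1 / 2) := by
  have h2 : (2 : ZMod p) ≠ 0 := by exact_mod_cast nat_ne (p := p) (m := 2) (by omega) (by omega)
  have h3 : (3 : ZMod p) ≠ 0 := by exact_mod_cast nat_ne (p := p) (m := 3) (by omega) (by omega)
  have h4 : (4 : ZMod p) ≠ 0 := by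
    rw [show (4 : ZMod p) = 2 * 2 by norm_num]; exact mul_ne_zero h2 h2
  have h6 : (6 : ZMod p) ≠ 0 := by
    rw [show (6 : ZMod p) = 2 * 3 by norm_num]; exact mul_ne_zero h2 h3
  have hp0 := ZMod.natCast_self p
  have h108 : (108 : ZMod p) ^ h = (-1) ^ h * ε := by
    have f := ZMod.pow_card_sub_one_eq_one h6
    rw [show p - 1 = 2 * h by omega, pow_mul] at f
    rw [show (108 : ZMod p) = 3 * 6 ^ 2 by norm_num, mul_pow, f, mul_one, three_pow h hp hh]
    rcases hn with ⟨a, _, c⟩ | ⟨a, _, c⟩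
    · rw [if_pos (by omega), c]
    · rw [if_neg (by omega), c]
  have hε : ε * ε = 1 := by rcases hn with ⟨_, _, c⟩ | ⟨_, _, c⟩ <;> simp [c]
  have hs : ((-1 : ZMod p) ^ h) * (-1) ^ h = 1 := by rw [← mul_pow]; simp
  have h108' : ((-1 : ZMod p) ^ h * ε) * ((-1) ^ h * ε) = 1 := by
    linear_combination ε * ε * hs + hε
  have hτ : Red p (t h) (-((-1) ^ h * ε) / 4) := by
    obtain ⟨j, rfl⟩ : ∃ j, h = j + 1 := ⟨h - 1, by omega⟩
    have hne : (((108 ^ (j + 1) : ℤ)) : ZMod p) ≠ 0 := by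
      push_cast; rw [h108]; exact left_ne_zero_of_mul_eq_one h108'
    refine ((red_s j (by omega) (by omega)).mul (Red.frac 1 (108 ^ (j + 1)) hne)).congr ?_ ?_
    · unfold t; push_cast; ring
    · push_cast; rw [h108, one_div, ← eq_inv_of_mul_eq_one_left h108']; ring
  have r1 := Red.sum _ _ h fun k hk => red_first h hp hh k hk
  have r2 := Red.sum _ _ (h + 1) fun j hj => red_second h hp hh _ hτ j hj
  have r3 := Red.frac (p := p) (-1) 2 (by exact_mod_cast h2)
  have c1 : ∀ i : ℕ, i < h → (2 : ZMod p) * i + 1 ≠ 0 := fun i hi => by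
    exact_mod_cast nat_ne (p := p) (m := 2 * i + 1) (by omega) (by omega)
  have c2 : ∀ i : ℕ, i < h → (1 : ZMod p) + i ≠ 0 := fun i hi => by
    exact_mod_cast nat_ne (p := p) (m := 1 + i) (by omega) (by omega)
  have s1 := sum1 (K := ZMod p) n h h2 (by omega) c1 fun i hi => c2 i (by omega)
  have s2 := sum2 (K := ZMod p) m (h + 1) h2 (by omega) (fun i hi => c1 i (by omega))
    fun i hi => c2 i (by omega)
  have hm : Even m := by rw [Nat.even_iff]; omega
  rw [hm.neg_one_pow] at s2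
  refine ((r1.add r2).add r3).congr ?_ ?_
  · rw [← sum_range_add t h (h + 1), show h + (h + 1) = (p - 1) + 1 by omega, sum_range_succ',
      t_zero, S, show Icc 1 (p - 1) = Ico 1 (p - 1 + 1) by ext; simp, sum_Ico_eq_sum_range,
      Nat.add_sub_cancel]
    simp only [t, add_comm 1]; push_cast; ring
  · rw [← mul_sum, ← mul_sum]
    rcases hn with ⟨a, b, c⟩ | ⟨a, b, c⟩
    · have a' : (6 * n + 1 : ZMod p) = 0 := by exact_mod_cast cast0 a
      have b' : (3 * m + 1 : ZMod p) = 0 := by exact_mod_cast cast0 b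
      have e1 : (1 / 6 : ZMod p) = -n := by field_simp; linear_combination a'
      have e2 : (5 / 6 : ZMod p) = n + 1 := by field_simp; linear_combination -a'
      have e3 : (1 / 3 : ZMod p) = -m := by field_simp; linear_combination b'
      have e4 : (-1 / 3 : ZMod p) = m := by field_simp; linear_combination -b'
      have e5 : (2 * n + 1 : ZMod p) = 2 / 3 := by field_simp; linear_combination a'
      rw [e1, e2, e3, e4, s1, s2, e5, c]
      push_cast; field_simp; ring
    · have a' : (6 * n + 5 : ZMod p) = 0 := by exact_mod_cast cast0 a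
      have b' : (3 * m - 1 : ZMod p) = 0 := by
        have := congrArg (Nat.cast : ℕ → ZMod p) b
        push_cast at this; rw [hp0] at this; linear_combination -this
      have e1 : (1 / 6 : ZMod p) = n + 1 := by field_simp; linear_combination -a'
      have e2 : (5 / 6 : ZMod p) = -n := by field_simp; linear_combination a'
      have e3 : (1 / 3 : ZMod p) = m := by field_simp; linear_combination -b'
      have e4 : (-1 / 3 : ZMod p) = -m := by field_simp; linear_combination b'
      have e5 : (2 * n + 1 : ZMod p) = -2 / 3 := by field_simp; linear_combination a'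
      simp_rw [e1, e2, e3, e4, g_symm (n + 1 : ZMod p), g_symm (m : ZMod p)]
      rw [s1, s2, e5, c]
      push_cast; field_simp; ring

theorem result (p : ℕ) (hp : p.Prime) (h3 : 3 < p) :
    ((p % 12 = 1 ∨ p % 12 = 11) → (p : ℤ) ∣ (S p).num) ∧
    ((p % 12 = 5 ∨ p % 12 = 7) → (p : ℤ) ∣ (S p + 1).num) := by
  haveI := Fact.mk hp
  have h2 : (2 : ZMod p) ≠ 0 := by exact_mod_cast nat_ne (p := p) (m := 2) (by omega) (by omega)
  have h4 : (4 : ZMod p) ≠ 0 := by
    rw [show (4 : ZMod p) = 2 * 2 by norm_num]; exact mul_ne_zero h2 h2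
  have one : Red p 1 1 := ⟨1, 1, by simp, by simp, by simp⟩
  constructor
  · rintro (h | h)
    · refine ((red_S (p / 2) (by omega) (by omega) (p / 6) (p / 3) 1
        (Or.inl ⟨by omega, by omega, rfl⟩)).congr rfl ?_).dvd_num
      rw [(Nat.even_iff.2 (by omega) : Even (p / 6)).neg_one_pow,
        (Nat.even_iff.2 (by omega) : Even (p / 2)).neg_one_pow]
      field_simp; ring
    · refine ((red_S (p / 2) (by omega) (by omega) (p / 6) (p / 3 + 1) (-1)
        (Or.inr ⟨by omega, by omega, rfl⟩)).congr rfl ?_).dvd_num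
      rw [(Nat.odd_iff.2 (by omega) : Odd (p / 6)).neg_one_pow,
        (Nat.odd_iff.2 (by omega) : Odd (p / 2)).neg_one_pow]
      field_simp; ring
  · rintro (h | h)
    · refine (((red_S (p / 2) (by omega) (by omega) (p / 6) (p / 3 + 1) (-1)
        (Or.inr ⟨by omega, by omega, rfl⟩)).add one).congr rfl ?_).dvd_num
      rw [(Nat.even_iff.2 (by omega) : Even (p / 6)).neg_one_pow,
        (Nat.even_iff.2 (by omega) : Even (p / 2)).neg_one_pow]
      field_simp; ring
    · refine (((red_S (p / 2) (by omega) (by omega) (p / 6) (p / 3) 1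
        (Or.inl ⟨by omega, by omega, rfl⟩)).add one).congr rfl ?_).dvd_num
      rw [(Nat.odd_iff.2 (by omega) : Odd (p / 6)).neg_one_pow,
        (Nat.odd_iff.2 (by omega) : Odd (p / 2)).neg_one_pow]
      field_simp; ring

end Pool.Agent.Results.MP_d2c11a_nt.Congruence
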